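import Pool.Agent.Helper342.Bell.Product

set_option autoImplicit false

namespace Pool.Agent.Helper342.Bell

/-- Bases obtained from the block matrices. -/
noncomputable def bas {d q n r : ℕ} (e : Fin d ≃ Idx q n r) (θ : Fin 2 → ℝ) :
    Fin 2 → Fin d → Fin d → ℂ :=
  fun x a j => ((U (θ x) (e a) (e j) : ℝ) : ℂ)

theorem bas_inner {d q n r : ℕ} (e : Fin d ≃ Idx q n r) (θ φ : Fin 2 → ℝ) (x y : Fin 2)
    (a b : Fin d) :
    ∑ j, bas e θ x a j * bas e φ y b j = ((V (θ x) (φ y) (e a) (e b) : ℝ) : ℂ) := by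
  unfold bas
  rw [← U_inner, ← Equiv.sum_comp e]
  push_cast
  rfl

theorem isMeasurement_bas {d q n r : ℕ} (e : Fin d ≃ Idx q n r) (θ : Fin 2 → ℝ) :
    IsMeasurement (bas e θ) := by
  intro x a b
  have h := bas_inner e θ θ x x a b
  rw [V_self] at h
  have h1 : ∀ j, star (bas e θ x a j) = bas e θ x a j := fun j => Complex.conj_ofReal _
  simp only [h1]
  rw [h]
  by_cases hab : a = b
  · subst hab
    simp
  · rw [if_neg hab, if_neg (fun h => hab (e.injective h))]
    simp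

theorem ov_bas {d q n r : ℕ} (e : Fin d ≃ Idx q n r) (x y : Fin 2) (a b : Fin d) :
    ov (bas e angA) (bas e angB) x y a b = V (angA x) (angB y) (e a) (e b) ^ 2 := by
  unfold ov
  rw [bas_inner, Complex.normSq_ofReal, sq]

theorem A_ge {q n r t m : ℕ} (htm : t ≤ m) (x y : Fin 2) {σ : ℝ} (hσ : 1 ≤ σ) :
    (q : ℝ) * (2 ^ n * (1 - 2 * ((1 - del + del * σ) ^ n / σ ^ t))) - r ≤
    ∑ α : Idx q n r, ∑ β : Idx q n r,
      phi t m (Z x y (str α) (str β)) * V (angA x) (angB y) α β ^ 2 := by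
  have hδ0 : 0 ≤ del := sq_nonneg _
  have hδ1 : del ≤ 1 := by
    unfold del
    exact Real.sin_sq_le_one _
  have h1 : ∀ (i : Fin q) (a : Fin n → Bool),
      ∑ β : Idx q n r, phi t m (Z x y (str (Sum.inl (i, a) : Idx q n r)) (str β))
        * V (angA x) (angB y) (Sum.inl (i, a)) β ^ 2
      = ∑ b : Fin n → Bool, phi t m (Z x y a b) * ∏ k, (if lose x y (a k) (b k) then del
          else 1 - del) := by
    intro i a
    rw [Fintype.sum_sum_type, Fintype.sum_prod_type]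
    simp only [str, V]
    rw [Finset.sum_eq_single i]
    · simp only [if_true]
      rw [show (∑ k : Fin r, phi t m (Z x y a fun _ => false) * (0 : ℝ) ^ 2) = 0 by simp, add_zero]
      refine Finset.sum_congr rfl fun b _ => ?_
      rw [← Finset.prod_pow]
      simp only [kap_sq]
    · intro i' _ hi'
      refine Finset.sum_eq_zero fun b _ => ?_
      rw [if_neg (Ne.symm hi')]
      simp
    · simp
  have h2 : ∀ k : Fin r, (-1 : ℝ) ≤
      ∑ β : Idx q n r, phi t m (Z x y (str (Sum.inr k : Idx q n r)) (str β))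
        * V (angA x) (angB y) (Sum.inr k) β ^ 2 := by
    intro k
    rw [Fintype.sum_sum_type, Fintype.sum_prod_type]
    simp only [str, V]
    have e1 : (∑ i : Fin q, ∑ b : Fin n → Bool,
        phi t m (Z x y (fun _ => false) b) * (0 : ℝ) ^ 2) = 0 := by simp
    rw [e1, zero_add, Finset.sum_eq_single k]
    · simp only [if_true, one_pow, mul_one]
      exact phi_ge_neg_one _ _ _
    · intro k' _ hk'
      rw [if_neg (Ne.symm hk')]
      simp
    · simp
  rw [Fintype.sum_sum_type, Fintype.sum_prod_type]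
  have h3 : (q : ℝ) * (2 ^ n * (1 - 2 * ((1 - del + del * σ) ^ n / σ ^ t))) ≤
      ∑ i : Fin q, ∑ a : Fin n → Bool,
        ∑ β : Idx q n r, phi t m (Z x y (str (Sum.inl (i, a) : Idx q n r)) (str β))
          * V (angA x) (angB y) (Sum.inl (i, a)) β ^ 2 := by
    simp only [h1]
    rw [Finset.sum_const, Finset.card_univ, Fintype.card_fin, nsmul_eq_mul]
    exact mul_le_mul_of_nonneg_left (quantum_part htm x y hδ0 hδ1 hσ) (Nat.cast_nonneg _)
  have h4 : (-(r : ℝ)) ≤ ∑ k : Fin r,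
      ∑ β : Idx q n r, phi t m (Z x y (str (Sum.inr k : Idx q n r)) (str β))
        * V (angA x) (angB y) (Sum.inr k) β ^ 2 := by
    calc (-(r : ℝ)) = ∑ _k : Fin r, (-1 : ℝ) := by simp
      _ ≤ _ := Finset.sum_le_sum fun k _ => h2 k
  linarith

theorem B_ge {q n r t m : ℕ} (x y : Fin 2) {σ : ℝ} (hσ : 1 ≤ σ) :
    -((q * 2 ^ n : ℝ) ^ 2 * (((1 + σ) / 2) ^ n / σ ^ m)) - (q * 2 ^ n : ℝ) * r
      - r * (q * 2 ^ n + r : ℝ) ≤
    ∑ α : Idx q n r, ∑ β : Idx q n r, phi t m (Z x y (str α) (str β)) := by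
  have hcard : (Fintype.card (Idx q n r) : ℝ) = q * 2 ^ n + r := by
    simp
  have h1 : -((q * 2 ^ n : ℝ) ^ 2 * (((1 + σ) / 2) ^ n / σ ^ m)) ≤
      ∑ i : Fin q, ∑ a : Fin n → Bool, ∑ i' : Fin q, ∑ b : Fin n → Bool,
        phi t m (Z x y a b) := by
    have e1 : ∑ i : Fin q, ∑ a : Fin n → Bool, ∑ i' : Fin q, ∑ b : Fin n → Bool,
        phi t m (Z x y a b) = (q : ℝ) ^ 2 * ∑ a : Fin n → Bool, ∑ b : Fin n → Bool,
        phi t m (Z x y a b) := by
      simp only [Finset.sum_const, Finset.card_univ, Fintype.card_fin, nsmul_eq_mul]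
      rw [← Finset.mul_sum]
      ring
    rw [e1]
    have h2 := mul_le_mul_of_nonneg_left (noise_part (n := n) (t := t) (m := m) x y hσ)
      (sq_nonneg (q : ℝ))
    refine le_trans (le_of_eq ?_) h2
    have e2 : (4 : ℝ) ^ n = 2 ^ n * 2 ^ n := by
      rw [← mul_pow]
      norm_num
    rw [e2]
    ring
  have h3 : -((q * 2 ^ n : ℝ) * r) ≤
      ∑ i : Fin q, ∑ a : Fin n → Bool, ∑ k : Fin r,
        phi t m (Z x y a (fun _ => false)) := by
    calc -((q * 2 ^ n : ℝ) * r) = ∑ _i : Fin q, ∑ _a : Fin n → Bool, ∑ _k : Fin r, (-1 : ℝ) := by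
          simp
          ring
      _ ≤ _ := Finset.sum_le_sum fun i _ => Finset.sum_le_sum fun a _ =>
          Finset.sum_le_sum fun k _ => phi_ge_neg_one _ _ _
  have h4 : -(r * (q * 2 ^ n + r : ℝ)) ≤
      ∑ k : Fin r, ∑ β : Idx q n r, phi t m (Z x y (str (Sum.inr k : Idx q n r)) (str β)) := by
    calc -(r * (q * 2 ^ n + r : ℝ)) = ∑ _k : Fin r, ∑ _β : Idx q n r, (-1 : ℝ) := by
          rw [Finset.sum_const, Finset.sum_const, Finset.card_univ, Finset.card_univ,
            nsmul_eq_mul, nsmul_eq_mul, hcard, Fintype.card_fin]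
          ring
      _ ≤ _ := Finset.sum_le_sum fun k _ => Finset.sum_le_sum fun β _ => phi_ge_neg_one _ _ _
  rw [Fintype.sum_sum_type (f := fun α : Idx q n r => ∑ β : Idx q n r,
    phi t m (Z x y (str α) (str β))), Fintype.sum_prod_type]
  have h5 : ∀ (i : Fin q) (a : Fin n → Bool),
      (∑ β : Idx q n r, phi t m (Z x y (str (Sum.inl (i, a) : Idx q n r)) (str β)))
      = (∑ i' : Fin q, ∑ b : Fin n → Bool, phi t m (Z x y a b))
        + ∑ k : Fin r, phi t m (Z x y a (fun _ => false)) := by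
    intro i a
    rw [Fintype.sum_sum_type, Fintype.sum_prod_type]
    rfl
  simp only [h5, Finset.sum_add_distrib]
  linarith

theorem F_behaviour {d q n r t m : ℕ} (e : Fin d ≃ Idx q n r) (v : ℝ) :
    F (fun a => str (e a)) t m (behaviour (bas e angA) (bas e angB) v)
      = ∑ x : Fin 2, ∑ y : Fin 2,
        (v / d * (∑ α : Idx q n r, ∑ β : Idx q n r,
          phi t m (Z x y (str α) (str β)) * V (angA x) (angB y) α β ^ 2)
        + (1 - v) / (d : ℝ) ^ 2 * (∑ α : Idx q n r, ∑ β : Idx q n r,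
          phi t m (Z x y (str α) (str β)))) := by
  unfold F
  refine Finset.sum_congr rfl fun x _ => Finset.sum_congr rfl fun y _ => ?_
  rw [← Equiv.sum_comp e (fun α => ∑ β : Idx q n r,
      phi t m (Z x y (str α) (str β)) * V (angA x) (angB y) α β ^ 2),
    ← Equiv.sum_comp e (fun α => ∑ β : Idx q n r, phi t m (Z x y (str α) (str β))),
    Finset.mul_sum, Finset.mul_sum, ← Finset.sum_add_distrib]
  refine Finset.sum_congr rfl fun a _ => ?_
  rw [← Equiv.sum_comp e (fun β =>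
      phi t m (Z x y (str (e a)) (str β)) * V (angA x) (angB y) (e a) β ^ 2),
    ← Equiv.sum_comp e (fun β => phi t m (Z x y (str (e a)) (str β))),
    Finset.mul_sum, Finset.mul_sum, ← Finset.sum_add_distrib]
  refine Finset.sum_congr rfl fun b _ => ?_
  rw [behaviour_eq _ _ (isMeasurement_bas e angA) (isMeasurement_bas e angB), ov_bas]
  ring

theorem not_local {d q n r t m : ℕ} (hd : 0 < d) (e : Fin d ≃ Idx q n r) (h : 3 * t + m < n)
    (htm : t ≤ m) {σ τ : ℝ} (hσ : 1 ≤ σ) (hτ : 1 ≤ τ) {v ρ₁ ρ₂ η : ℝ} (hv0 : 0 ≤ v) (hv1 : v ≤ 1)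
    (h1 : (1 - del + del * σ) ^ n / σ ^ t ≤ ρ₁) (h2 : ((1 + τ) / 2) ^ n / τ ^ m ≤ ρ₂)
    (h3 : (r : ℝ) / d ≤ η)
    (hbig : 1 / 2 < v * (1 - 2 * ρ₁ - 2 * η) - (1 - v) * (ρ₂ + 2 * η)) :
    ¬ IsLocal (behaviour (bas e angA) (bas e angB) v) := by
  intro hloc
  have hF := F_local (fun a => str (e a)) h htm hloc
  rw [F_behaviour] at hF
  have hd' : (0 : ℝ) < d := by exact_mod_cast hd
  have hcard : (d : ℝ) = q * 2 ^ n + r := by
    have := Fintype.card_congr e
    have h5 : (d : ℝ) = (Fintype.card (Idx q n r) : ℝ) := by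
      rw [← this, Fintype.card_fin]
    rw [h5]
    simp
  have hdel0 : 0 ≤ del := sq_nonneg _
  have hdel1 : del ≤ 1 := Real.sin_sq_le_one _
  have hr0 : (0 : ℝ) ≤ r := Nat.cast_nonneg r
  have hq0 : (0 : ℝ) ≤ q * 2 ^ n := by positivity
  have hρ1 : 0 ≤ (1 - del + del * σ) ^ n / σ ^ t := by
    have : 0 ≤ 1 - del + del * σ := by
      have := mul_nonneg hdel0 (by linarith : (0 : ℝ) ≤ σ)
      linarith
    positivity
  have hρ2 : 0 ≤ ((1 + τ) / 2) ^ n / τ ^ m := by
    have : 0 ≤ (1 + τ) / 2 := by linarith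
    positivity
  have key : ∀ x y : Fin 2, v * (1 - 2 * ρ₁ - 2 * η) - (1 - v) * (ρ₂ + 2 * η) ≤
      v / d * (∑ α : Idx q n r, ∑ β : Idx q n r,
          phi t m (Z x y (str α) (str β)) * V (angA x) (angB y) α β ^ 2)
        + (1 - v) / (d : ℝ) ^ 2 * (∑ α : Idx q n r, ∑ β : Idx q n r,
          phi t m (Z x y (str α) (str β))) := by
    intro x y
    have hA := A_ge (q := q) (n := n) (r := r) htm x y hσ
    have hB := B_ge (q := q) (n := n) (r := r) (t := t) (m := m) x y hτ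
    have hA2 : v * (1 - 2 * ρ₁ - 2 * η) ≤ v / d * (∑ α : Idx q n r, ∑ β : Idx q n r,
          phi t m (Z x y (str α) (str β)) * V (angA x) (angB y) α β ^ 2) := by
      refine le_trans ?_ (mul_le_mul_of_nonneg_left hA (by positivity))
      have e1 : v / d * ((q : ℝ) * (2 ^ n * (1 - 2 * ((1 - del + del * σ) ^ n / σ ^ t))) - r)
          = v * (((q * 2 ^ n) * (1 - 2 * ((1 - del + del * σ) ^ n / σ ^ t)) - r) / d) := by
        ring
      rw [e1]
      refine mul_le_mul_of_nonneg_left ?_ hv0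
      set ρ := (1 - del + del * σ) ^ n / σ ^ t with hρ
      have e2 : (q : ℝ) * 2 ^ n = d - r := by linarith
      rw [e2]
      have e3 : (((d : ℝ) - r) * (1 - 2 * ρ) - r) / d
          = 1 - 2 * ρ - 2 * ((r : ℝ) / d) + 2 * ((r : ℝ) / d) * ρ := by
        field_simp
        ring
      rw [e3]
      have : 0 ≤ 2 * ((r : ℝ) / d) * ρ := by positivity
      linarith
    have hB2 : -((1 - v) * (ρ₂ + 2 * η)) ≤ (1 - v) / (d : ℝ) ^ 2 *
        (∑ α : Idx q n r, ∑ β : Idx q n r, phi t m (Z x y (str α) (str β))) := by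
      refine le_trans ?_ (mul_le_mul_of_nonneg_left hB
        (div_nonneg (by linarith) (by positivity)))
      set ρ := ((1 + τ) / 2) ^ n / τ ^ m with hρ
      have e2 : (q : ℝ) * 2 ^ n = d - r := by linarith
      rw [e2]
      have e3 : (1 - v) / (d : ℝ) ^ 2 * (-(((d : ℝ) - r) ^ 2 * ρ) - ((d : ℝ) - r) * r
            - r * ((d : ℝ) - r + r))
          = (1 - v) * (-(((d : ℝ) - r) / d) ^ 2 * ρ - ((d : ℝ) - r) / d * (r / d) - r / d) := by
        field_simp
        ring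
      rw [e3]
      have h6 : 0 ≤ ((d : ℝ) - r) / d := div_nonneg (by linarith) hd'.le
      have h7 : ((d : ℝ) - r) / d ≤ 1 := by
        rw [div_le_one hd']
        linarith
      have h8 : 0 ≤ (r : ℝ) / d := by positivity
      have h9 : (((d : ℝ) - r) / d) ^ 2 * ρ ≤ ρ := by
        have : (((d : ℝ) - r) / d) ^ 2 ≤ 1 := pow_le_one₀ h6 h7
        nlinarith
      have h10 : ((d : ℝ) - r) / d * (r / d) ≤ r / d := by nlinarith
      have h11 : -(ρ₂ + 2 * η) ≤ -(((d : ℝ) - r) / d) ^ 2 * ρ - ((d : ℝ) - r) / d * (r / d)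
          - r / d := by
        have e4 : -(((d : ℝ) - r) / d) ^ 2 * ρ = -((((d : ℝ) - r) / d) ^ 2 * ρ) := by ring
        rw [e4]
        linarith
      have := mul_le_mul_of_nonneg_left h11 (by linarith : (0 : ℝ) ≤ 1 - v)
      linarith
    linarith
  rw [Fin.sum_univ_two, Fin.sum_univ_two, Fin.sum_univ_two] at hF
  have k1 := key 0 0
  have k2 := key 0 1
  have k3 := key 1 0
  have k4 := key 1 1
  linarith

end Pool.Agent.Helper342.Bell
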