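import Pool.Agent.Helper342.Bell.Stoch

set_option autoImplicit false

namespace Pool.Agent.Helper342.Bell

open Complex

theorem sum_exp_eq_geom (d : ℕ) (c : ℂ) :
    (∑ j : Fin d, Complex.exp ((j : ℂ) * c)) * (Complex.exp c - 1)
      = Complex.exp ((d : ℂ) * c) - 1 := by
  have h1 : (∑ j : Fin d, Complex.exp ((j : ℂ) * c)) = ∑ j ∈ Finset.range d, (Complex.exp c) ^ j := by
    rw [Finset.sum_range]
    refine Finset.sum_congr rfl fun j _ => ?_
    rw [← Complex.exp_nat_mul]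
  rw [h1, geom_sum_mul, ← Complex.exp_nat_mul]

theorem sum_exp_int (d : ℕ) (k k' : Fin d) :
    (∑ j : Fin d, Complex.exp ((j : ℂ) * (2 * Real.pi * I * ((k : ℂ) - (k' : ℂ)) / d)))
      = if k = k' then (d : ℂ) else 0 := by
  have hd : 0 < d := lt_of_le_of_lt (Nat.zero_le _) k.isLt
  have hd' : (d : ℂ) ≠ 0 := by exact_mod_cast hd.ne'
  split_ifs with h
  · subst h
    simp
  · have h1 := sum_exp_eq_geom d (2 * Real.pi * I * ((k : ℂ) - (k' : ℂ)) / d)
    have h2 : Complex.exp ((d : ℂ) * (2 * Real.pi * I * ((k : ℂ) - (k' : ℂ)) / d)) = 1 := by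
      rw [Complex.exp_eq_one_iff]
      refine ⟨(k : ℤ) - (k' : ℤ), ?_⟩
      push_cast
      field_simp
    rw [h2, sub_self] at h1
    rcases mul_eq_zero.mp h1 with h3 | h3
    · exact h3
    · exfalso
      rw [sub_eq_zero, Complex.exp_eq_one_iff] at h3
      obtain ⟨n, hn⟩ := h3
      have hpi : (2 * Real.pi * I : ℂ) ≠ 0 := Complex.two_pi_I_ne_zero
      have h4 : ((k : ℂ) - (k' : ℂ)) = n * d := by
        field_simp at hn
        rw [hn, mul_comm]
      have h6 : ((k : ℤ) - (k' : ℤ)) = n * d := by exact_mod_cast h4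
      have h7 : n = 0 := by
        by_contra hn0
        have h8 : (d : ℤ) ≤ |(k : ℤ) - (k' : ℤ)| := by
          rw [h6, abs_mul, Nat.abs_cast]
          have : 1 ≤ |n| := Int.one_le_abs hn0
          nlinarith [abs_nonneg n, (by exact_mod_cast hd.le : (0 : ℤ) ≤ d)]
        have h9 := k.isLt
        have h10 := k'.isLt
        have h11 : |(k : ℤ) - (k' : ℤ)| < d := by
          rw [abs_lt]
          constructor <;> omega
        omega
      rw [h7] at h6
      apply h
      ext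
      have : (k : ℤ) = k' := by linarith
      exact_mod_cast this

theorem inv_sqrt_sq {d : ℕ} (hd : 0 < d) :
    ((((Real.sqrt d)⁻¹ : ℝ) : ℂ)) * ((((Real.sqrt d)⁻¹ : ℝ) : ℂ)) = (d : ℂ)⁻¹ := by
  have hd' : (0 : ℝ) < d := by exact_mod_cast hd
  rw [← Complex.ofReal_mul, ← mul_inv, Real.mul_self_sqrt hd'.le]
  push_cast
  rfl

theorem star_exp_I (t : ℝ) : star (Complex.exp ((t : ℂ) * I)) = Complex.exp (-((t : ℂ) * I)) := by
  change (starRingEnd ℂ) _ = _
  rw [← Complex.exp_conj]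
  congr 1
  simp

theorem isMeasurement_dkzA (d : ℕ) : IsMeasurement (dkzA d) := by
  intro x a b
  have hd : 0 < d := lt_of_le_of_lt (Nat.zero_le _) a.isLt
  have hd' : (d : ℂ) ≠ 0 := by exact_mod_cast hd.ne'
  have h1 : ∀ j : Fin d, star (dkzA d x a j) * dkzA d x b j
      = (d : ℂ)⁻¹ * Complex.exp ((j : ℂ) * (2 * Real.pi * I * ((a : ℂ) - (b : ℂ)) / d)) := by
    intro j
    unfold dkzA
    rw [star_mul']
    have e1 : (-(2 * Real.pi * I * (j : ℂ) * ((a : ℂ) + (alpha x : ℂ)) / (d : ℂ)))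
        = (((-(2 * Real.pi * j * (a + alpha x) / d) : ℝ)) : ℂ) * I := by
      push_cast
      ring
    have e2 : star ((((Real.sqrt d)⁻¹ : ℝ) : ℂ)) = (((Real.sqrt d)⁻¹ : ℝ) : ℂ) :=
      Complex.conj_ofReal _
    rw [e1, star_exp_I, e2, ← inv_sqrt_sq hd]
    have e3 : Complex.exp ((j : ℂ) * (2 * Real.pi * I * ((a : ℂ) - (b : ℂ)) / d))
        = Complex.exp (-((((-(2 * Real.pi * j * (a + alpha x) / d) : ℝ)) : ℂ) * I))
          * Complex.exp (-(2 * Real.pi * I * (j : ℂ) * ((b : ℂ) + (alpha x : ℂ)) / (d : ℂ))) := by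
      rw [← Complex.exp_add]
      congr 1
      push_cast
      ring
    rw [e3]
    ring
  simp only [h1]
  rw [← Finset.mul_sum, sum_exp_int]
  split_ifs
  · exact inv_mul_cancel₀ hd'
  · simp

theorem isMeasurement_dkzB (d : ℕ) : IsMeasurement (dkzB d) := by
  intro x a b
  have hd : 0 < d := lt_of_le_of_lt (Nat.zero_le _) a.isLt
  have hd' : (d : ℂ) ≠ 0 := by exact_mod_cast hd.ne'
  have h1 : ∀ j : Fin d, star (dkzB d x a j) * dkzB d x b j
      = (d : ℂ)⁻¹ * Complex.exp ((j : ℂ) * (2 * Real.pi * I * ((b : ℂ) - (a : ℂ)) / d)) := by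
    intro j
    unfold dkzB
    rw [star_mul']
    have e1 : (2 * Real.pi * I * (j : ℂ) * ((a : ℂ) - (beta x : ℂ)) / (d : ℂ))
        = ((((2 * Real.pi * j * (a - beta x) / d) : ℝ)) : ℂ) * I := by
      push_cast
      ring
    have e2 : star ((((Real.sqrt d)⁻¹ : ℝ) : ℂ)) = (((Real.sqrt d)⁻¹ : ℝ) : ℂ) :=
      Complex.conj_ofReal _
    rw [e1, star_exp_I, e2, ← inv_sqrt_sq hd]
    have e3 : Complex.exp ((j : ℂ) * (2 * Real.pi * I * ((b : ℂ) - (a : ℂ)) / d))
        = Complex.exp (-(((((2 * Real.pi * j * (a - beta x) / d) : ℝ)) : ℂ) * I))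
          * Complex.exp (2 * Real.pi * I * (j : ℂ) * ((b : ℂ) - (beta x : ℂ)) / (d : ℂ)) := by
      rw [← Complex.exp_add]
      congr 1
      push_cast
      ring
    rw [e3]
    ring
  simp only [h1]
  rw [← Finset.mul_sum, sum_exp_int]
  by_cases h : a = b
  · subst h
    simp [hd']
  · rw [if_neg h, if_neg (Ne.symm h), mul_zero]

theorem dkz_overlap {d : ℕ} (x y : Fin 2) (k : Fin d) :
    ∑ j, dkzA d x k j * dkzB d y k j
      = (d : ℂ)⁻¹ * ∑ j : Fin d, Complex.exp ((j : ℂ) *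
          (((-(2 * Real.pi * (alpha x + beta y) / d) : ℝ) : ℂ) * I)) := by
  have hd : 0 < d := lt_of_le_of_lt (Nat.zero_le _) k.isLt
  rw [Finset.mul_sum]
  refine Finset.sum_congr rfl fun j _ => ?_
  unfold dkzA dkzB
  rw [← inv_sqrt_sq hd]
  have e3 : Complex.exp ((j : ℂ) * (((-(2 * Real.pi * (alpha x + beta y) / d) : ℝ) : ℂ) * I))
      = Complex.exp (-(2 * Real.pi * I * (j : ℂ) * ((k : ℂ) + (alpha x : ℂ)) / (d : ℂ)))
        * Complex.exp (2 * Real.pi * I * (j : ℂ) * ((k : ℂ) - (beta y : ℂ)) / (d : ℂ)) := by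
    rw [← Complex.exp_add]
    congr 1
    push_cast
    ring
  rw [e3]
  ring

theorem cos_two_pi_phase (x y : Fin 2) : Real.cos (2 * Real.pi * (alpha x + beta y)) = 0 := by
  have h1 : Real.cos (Real.pi / 2) = 0 := Real.cos_pi_div_two
  have h2 : Real.cos (3 * Real.pi / 2) = 0 := by
    rw [show 3 * Real.pi / 2 = Real.pi / 2 + Real.pi by ring, Real.cos_add_pi, h1, neg_zero]
  fin_cases x <;> fin_cases y
  · simp only [alpha, beta, Fin.zero_eta, Matrix.cons_val_zero]
    rw [show 2 * Real.pi * (1 / 2 + -1 / 4) = Real.pi / 2 by ring, h1]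
  · simp only [alpha, beta, Fin.zero_eta, Matrix.cons_val_zero, Fin.mk_one, Matrix.cons_val_one]
    rw [show 2 * Real.pi * (1 / 2 + 1 / 4) = 3 * Real.pi / 2 by ring, h2]
  · simp only [alpha, beta, Fin.zero_eta, Matrix.cons_val_zero, Fin.mk_one, Matrix.cons_val_one]
    rw [show 2 * Real.pi * (0 + -1 / 4) = -(Real.pi / 2) by ring, Real.cos_neg, h1]
  · simp only [alpha, beta, Fin.mk_one, Matrix.cons_val_one, Matrix.cons_val_zero]
    rw [show 2 * Real.pi * (0 + 1 / 4) = Real.pi / 2 by ring, h1]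

theorem phase_sq_le (x y : Fin 2) : (alpha x + beta y) ^ 2 ≤ 9 / 16 := by
  fin_cases x <;> fin_cases y <;> simp [alpha, beta] <;> norm_num

theorem normSq_exp_sub_one (t : ℝ) :
    Complex.normSq (Complex.exp ((t : ℂ) * I) - 1) = 2 - 2 * Real.cos t := by
  rw [Complex.normSq_apply]
  simp only [Complex.sub_re, Complex.sub_im, Complex.exp_ofReal_mul_I_re,
    Complex.exp_ofReal_mul_I_im, Complex.one_re, Complex.one_im]
  nlinarith [Real.sin_sq_add_cos_sq t]

theorem dkz_diag {d : ℕ} (x y : Fin 2) (k : Fin d) :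
    8 / (9 * Real.pi ^ 2) ≤ ov (dkzA d) (dkzB d) x y k k := by
  have hd : 0 < d := lt_of_le_of_lt (Nat.zero_le _) k.isLt
  have hd' : (0 : ℝ) < d := by exact_mod_cast hd
  have hdc : (d : ℂ) ≠ 0 := by exact_mod_cast hd.ne'
  have hpi := Real.pi_pos
  set t : ℝ := -(2 * Real.pi * (alpha x + beta y) / d) with ht
  set S : ℂ := ∑ j : Fin d, Complex.exp ((j : ℂ) * ((t : ℂ) * I)) with hS
  have h1 : ov (dkzA d) (dkzB d) x y k k = Complex.normSq S / d ^ 2 := by
    unfold ov
    rw [dkz_overlap, ← ht, ← hS, Complex.normSq_mul, Complex.normSq_inv, Complex.normSq_natCast]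
    field_simp
  have h2 : Complex.normSq S * (2 - 2 * Real.cos t) = 2 := by
    have h3 := congrArg Complex.normSq (sum_exp_eq_geom d ((t : ℂ) * I))
    rw [Complex.normSq_mul, normSq_exp_sub_one] at h3
    rw [h3]
    have e1 : (d : ℂ) * ((t : ℂ) * I) = (((-(2 * Real.pi * (alpha x + beta y))) : ℝ) : ℂ) * I := by
      rw [ht]
      push_cast
      field_simp
    rw [e1, normSq_exp_sub_one, Real.cos_neg, cos_two_pi_phase]
    ring
  have h4 : 2 - 2 * Real.cos t ≤ t ^ 2 := by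
    have := Real.one_sub_sq_div_two_le_cos (x := t)
    linarith
  have h5 : t ^ 2 ≤ 9 * Real.pi ^ 2 / (4 * d ^ 2) := by
    have e2 : t ^ 2 = 4 * Real.pi ^ 2 * (alpha x + beta y) ^ 2 / d ^ 2 := by
      rw [ht]
      ring
    rw [e2, div_le_div_iff₀ (by positivity) (by positivity)]
    have := phase_sq_le x y
    have h6 : 0 ≤ Real.pi ^ 2 * (d : ℝ) ^ 2 := by positivity
    nlinarith
  have h7 : 2 ≤ Complex.normSq S * (9 * Real.pi ^ 2 / (4 * d ^ 2)) := by
    calc (2 : ℝ) = Complex.normSq S * (2 - 2 * Real.cos t) := h2.symm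
      _ ≤ _ := mul_le_mul_of_nonneg_left (h4.trans h5) (Complex.normSq_nonneg _)
  rw [h1, div_le_div_iff₀ (by positivity) (by positivity)]
  have h8 : Complex.normSq S * (9 * Real.pi ^ 2 / (4 * d ^ 2)) * (4 * d ^ 2)
      = Complex.normSq S * (9 * Real.pi ^ 2) := by
    field_simp
  have h9 : 2 * (4 * (d : ℝ) ^ 2) ≤ Complex.normSq S * (9 * Real.pi ^ 2) := by
    rw [← h8]
    exact mul_le_mul_of_nonneg_right h7 (by positivity)
  linarith

theorem dkz_local {d : ℕ} (hd : 0 < d) : IsLocal (behaviour (dkzA d) (dkzB d) (13 / 25)) := by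
  have h := isLocal_behaviour hd (dkzA d) (dkzB d) (isMeasurement_dkzA d) (isMeasurement_dkzB d)
    (1 / 25) (by norm_num) (by norm_num) (fun x y a => by
      have h1 := dkz_diag x y a
      have h2 : (1 : ℝ) / 13 ≤ 8 / (9 * Real.pi ^ 2) := by
        rw [div_le_div_iff₀ (by norm_num) (by positivity)]
        have := Real.pi_lt_d2
        have := Real.pi_pos
        nlinarith
      linarith)
  norm_num at h
  exact h

theorem dkz_critVis {d : ℕ} (hd : 0 < d) : 13 / 25 ≤ critVis (dkzA d) (dkzB d) :=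
  le_critVis _ _ ⟨by norm_num, by norm_num⟩ (dkz_local hd)

end Pool.Agent.Helper342.Bell
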