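import Mathlib

/-!
Definitions for MP_e6e34a_mp (noise robustness of Fourier-phase measurements).

Inputs are indexed by `Fin 2` (the file's inputs `1, 2` are `0, 1` here), outputs by `Fin d`.
-/

set_option autoImplicit false

namespace Pool.Agent.Helper342.Bell

open scoped Kronecker

/-- A behaviour with two inputs per party and `d` outputs: `p x y a b = p(a,b|x,y)`. -/
abbrev Behaviour (d : ℕ) : Type := Fin 2 → Fin 2 → Fin d → Fin d → ℝ

/-- The deterministic behaviour given by the strategies `f` (Alice) and `g` (Bob). -/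
def det {d : ℕ} (f g : Fin 2 → Fin d) : Behaviour d :=
  fun x y a b => if a = f x ∧ b = g y then 1 else 0

/-- A behaviour is local if it is a convex combination of deterministic behaviours. -/
def IsLocal {d : ℕ} (p : Behaviour d) : Prop :=
  p ∈ convexHull ℝ
    (Set.range fun s : (Fin 2 → Fin d) × (Fin 2 → Fin d) => (det s.1 s.2 : Behaviour d))

/-- The maximally entangled vector `Φ_d = d^{-1/2} ∑ |j⟩|j⟩`. -/
noncomputable def Phi (d : ℕ) : Fin d × Fin d → ℂ :=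
  fun q => if q.1 = q.2 then (((Real.sqrt d)⁻¹ : ℝ) : ℂ) else 0

/-- The rank one operator `|ψ⟩⟨ψ|`. -/
def ketbra {ι : Type} (ψ : ι → ℂ) : Matrix ι ι ℂ := Matrix.vecMulVec ψ (star ψ)

/-- The state `ρ_v = v |Φ_d⟩⟨Φ_d| + (1 - v) 1/d²`. -/
noncomputable def rho (d : ℕ) (v : ℝ) : Matrix (Fin d × Fin d) (Fin d × Fin d) ℂ :=
  (v : ℂ) • ketbra (Phi d) + (((1 - v) / (d : ℝ) ^ 2 : ℝ) : ℂ) • (1 : Matrix _ _ ℂ)

/-- A family of two vectors systems: `u x a` is the `a`-th vector for the input `x`; `u x a j` is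
its `j`-th coordinate. It is a (complete von Neumann) measurement choice for one party if for
each input the `d` vectors are orthonormal in `ℂ^d`. -/
def IsMeasurement {d : ℕ} (u : Fin 2 → Fin d → Fin d → ℂ) : Prop :=
  ∀ x a b, ∑ j, star (u x a j) * u x b j = if a = b then 1 else 0

/-- `p_v(a,b|x,y) = Tr[ρ_v (|u_{x,a}⟩⟨u_{x,a}| ⊗ |w_{y,b}⟩⟨w_{y,b}|)]`. -/
noncomputable def behaviour {d : ℕ} (u w : Fin 2 → Fin d → Fin d → ℂ) (v : ℝ) : Behaviour d :=
  fun x y a b => (Matrix.trace (rho d v * (ketbra (u x a) ⊗ₖ ketbra (w y b)))).re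

/-- The critical visibility `v* = sup {v ∈ [0,1] : p_v is local}`. -/
noncomputable def critVis {d : ℕ} (u w : Fin 2 → Fin d → Fin d → ℂ) : ℝ :=
  sSup {v : ℝ | v ∈ Set.Icc (0 : ℝ) 1 ∧ IsLocal (behaviour u w v)}

/-- The phases `α = (1/2, 0)`. -/
noncomputable def alpha : Fin 2 → ℝ := ![1 / 2, 0]

/-- The phases `β = (-1/4, 1/4)`. -/
noncomputable def beta : Fin 2 → ℝ := ![-1 / 4, 1 / 4]

/-- Alice's DKZ vectors `u_{x,k} = d^{-1/2} ∑ e^{-2πi j (k+α_x)/d} |j⟩`. -/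
noncomputable def dkzA (d : ℕ) : Fin 2 → Fin d → Fin d → ℂ :=
  fun x k j => (((Real.sqrt d)⁻¹ : ℝ) : ℂ) *
    Complex.exp (-(2 * Real.pi * Complex.I * (j : ℂ) * ((k : ℂ) + (alpha x : ℂ)) / (d : ℂ)))

/-- Bob's DKZ vectors `w_{y,l} = d^{-1/2} ∑ e^{2πi j (l-β_y)/d} |j⟩`. -/
noncomputable def dkzB (d : ℕ) : Fin 2 → Fin d → Fin d → ℂ :=
  fun y l j => (((Real.sqrt d)⁻¹ : ℝ) : ℂ) *
    Complex.exp (2 * Real.pi * Complex.I * (j : ℂ) * ((l : ℂ) - (beta y : ℂ)) / (d : ℂ))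

end Pool.Agent.Helper342.Bell
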