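import Pool.Agent.Helper342.Bell.Assemble
import Pool.Agent.Helper342.Bell.DKZ

set_option autoImplicit false

namespace Pool.Agent.Helper342.Bell

theorem del_le : del ≤ 1465 / 10000 := by
  unfold del
  rw [Real.sin_pi_div_eight]
  have h2 : (1.414 : ℝ) ≤ Real.sqrt 2 := by
    rw [Real.le_sqrt (by norm_num) (by norm_num)]
    norm_num
  have h3 : Real.sqrt 2 ≤ 2 := by
    rw [Real.sqrt_le_left (by norm_num)]
    norm_num
  rw [div_pow, Real.sq_sqrt (by linarith)]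
  norm_num at h2 ⊢
  linarith

theorem rho1_le (k : ℕ) :
    (1 - del + del * (107 / 100)) ^ (200 * k) / (107 / 100 : ℝ) ^ (31 * k) ≤ (19 / 20) ^ k := by
  have hdel0 : 0 ≤ del := sq_nonneg _
  have h1 : (1 - del + del * (107 / 100)) ≤ 1010255 / 1000000 := by
    have := del_le
    linarith
  have h0 : 0 ≤ 1 - del + del * (107 / 100) := by linarith
  rw [pow_mul, pow_mul, ← div_pow]
  refine pow_le_pow_left₀ (by positivity) ?_ k
  rw [div_le_iff₀ (by positivity)]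
  calc (1 - del + del * (107 / 100)) ^ 200 ≤ (1010255 / 1000000 : ℝ) ^ 200 :=
        pow_le_pow_left₀ h0 h1 200
    _ ≤ 19 / 20 * (107 / 100) ^ 31 := by norm_num

theorem rho2_le (k : ℕ) :
    ((1 + (112 / 100 : ℝ)) / 2) ^ (200 * k) / (112 / 100 : ℝ) ^ (106 * k) ≤ (3 / 4) ^ k := by
  rw [pow_mul, pow_mul, ← div_pow]
  refine pow_le_pow_left₀ (by positivity) ?_ k
  rw [div_le_iff₀ (by positivity)]
  norm_num

theorem exists_k {ε : ℝ} (hε : 0 < ε) :
    ∃ k : ℕ, 1 ≤ k ∧ 2 * (19 / 20 : ℝ) ^ k + (3 / 4 : ℝ) ^ k < ε := by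
  have h1 : Filter.Tendsto (fun k : ℕ => 2 * (19 / 20 : ℝ) ^ k + (3 / 4 : ℝ) ^ k) Filter.atTop
      (nhds (2 * 0 + 0)) :=
    ((tendsto_pow_atTop_nhds_zero_of_lt_one (by norm_num) (by norm_num)).const_mul 2).add
      (tendsto_pow_atTop_nhds_zero_of_lt_one (by norm_num) (by norm_num))
  have h2 := (h1.eventually (gt_mem_nhds (by linarith : (2 : ℝ) * 0 + 0 < ε))).and
    (Filter.eventually_ge_atTop 1)
  obtain ⟨k, hk⟩ := h2.exists
  exact ⟨k, hk.2, hk.1⟩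

/-- For every `ε` in `(0, 1/2]` and all large `d` there are measurements that are nonlocal at
visibility `1/2 + ε`. -/
theorem nonlocal_near_half {ε : ℝ} (hε : 0 < ε) (hε2 : ε ≤ 1 / 2) :
    ∃ D : ℕ, ∀ d : ℕ, D ≤ d → ∃ u w : Fin 2 → Fin d → Fin d → ℂ,
      IsMeasurement u ∧ IsMeasurement w ∧ ¬ IsLocal (behaviour u w (1 / 2 + ε)) := by
  obtain ⟨k, hk1, hk⟩ := exists_k (half_pos hε)
  set n := 200 * k with hn
  obtain ⟨D, hD⟩ := exists_nat_ge (8 * 2 ^ n / ε : ℝ)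
  refine ⟨D + 1, fun d hd => ?_⟩
  have hdpos : 0 < d := by omega
  have hd' : (0 : ℝ) < d := by exact_mod_cast hdpos
  have hcard : Fintype.card (Idx (d / 2 ^ n) n (d % 2 ^ n)) = d := by
    simp only [Fintype.card_sum, Fintype.card_prod, Fintype.card_fin, Fintype.card_fun,
      Fintype.card_bool]
    rw [mul_comm]
    exact Nat.div_add_mod d (2 ^ n)
  let e : Fin d ≃ Idx (d / 2 ^ n) n (d % 2 ^ n) := (Fintype.equivFinOfCardEq hcard).symm
  have hη : ((d % 2 ^ n : ℕ) : ℝ) / d ≤ ε / 8 := by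
    rw [div_le_div_iff₀ hd' (by norm_num)]
    have h1 : ((d % 2 ^ n : ℕ) : ℝ) ≤ 2 ^ n := by
      have := (Nat.mod_lt d (by positivity : 0 < 2 ^ n)).le
      exact_mod_cast this
    have h2 : (8 * 2 ^ n / ε : ℝ) ≤ d := hD.trans (by exact_mod_cast (by omega : D ≤ d))
    rw [div_le_iff₀ hε] at h2
    linarith
  refine ⟨bas e angA, bas e angB, isMeasurement_bas e angA, isMeasurement_bas e angB, ?_⟩
  have hp1 : (0 : ℝ) ≤ (19 / 20) ^ k := by positivity
  have hp2 : (0 : ℝ) ≤ (3 / 4) ^ k := by positivity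
  refine not_local (t := 31 * k) (m := 106 * k) (σ := 107 / 100) (τ := 112 / 100)
    (ρ₁ := (19 / 20) ^ k) (ρ₂ := (3 / 4) ^ k) (η := ε / 8) hdpos e (by omega) (by omega)
    (by norm_num) (by norm_num) (by linarith) (by linarith) (rho1_le k) (rho2_le k) hη ?_
  have h3 : (1 / 2 + ε) * (2 * (19 / 20) ^ k + 2 * (ε / 8)) ≤ 2 * (19 / 20) ^ k + 2 * (ε / 8) :=
    mul_le_of_le_one_left (by positivity) (by linarith)
  have h4 : (1 - (1 / 2 + ε)) * ((3 / 4) ^ k + 2 * (ε / 8)) ≤ (3 / 4) ^ k + 2 * (ε / 8) :=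
    mul_le_of_le_one_left (by positivity) (by linarith)
  have h5 : (1 / 2 + ε) * (1 - 2 * (19 / 20) ^ k - 2 * (ε / 8))
      = (1 / 2 + ε) - (1 / 2 + ε) * (2 * (19 / 20) ^ k + 2 * (ε / 8)) := by ring
  rw [h5]
  linarith

theorem critVis_near_half {ε : ℝ} (hε : 0 < ε) :
    ∃ D : ℕ, ∀ d : ℕ, D ≤ d → ∃ u w : Fin 2 → Fin d → Fin d → ℂ,
      IsMeasurement u ∧ IsMeasurement w ∧ critVis u w ≤ 1 / 2 + ε := by
  obtain ⟨D, hD⟩ := nonlocal_near_half (ε := min ε (1 / 2)) (lt_min hε (by norm_num))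
    (min_le_right _ _)
  refine ⟨max D 1, fun d hd => ?_⟩
  obtain ⟨u, w, hu, hw, h⟩ := hD d (le_trans (le_max_left _ _) hd)
  have hd0 : 0 < d := lt_of_lt_of_le zero_lt_one (le_trans (le_max_right _ _) hd)
  have hm : 0 < min ε (1 / 2) := lt_min hε (by norm_num)
  refine ⟨u, w, hu, hw, ?_⟩
  have h1 := critVis_le hd0 u w hu hw (by linarith) h
  have h2 : min ε (1 / 2) ≤ ε := min_le_left _ _
  linarith

end Pool.Agent.Helper342.Bell
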