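import Pool.Agent.Helper342.Bell.Defs

set_option autoImplicit false

namespace Pool.Agent.Helper342.Bell

/-- Whether the outputs `a, b` lose the CHSH game on inputs `x, y`. -/
def lose (x y : Fin 2) (a b : Bool) : Bool := xor (xor a b) (decide (x = 1 ∧ y = 1))

/-- The number of coordinates in which the strings lose the CHSH game. -/
def Z {n : ℕ} (x y : Fin 2) (a b : Fin n → Bool) : ℕ :=
  ∑ i, if lose x y (a i) (b i) then 1 else 0

theorem lose_parity (a0 a1 b0 b1 : Bool) :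
    1 ≤ (if lose 0 0 a0 b0 then 1 else 0) + (if lose 0 1 a0 b1 then 1 else 0)
      + (if lose 1 0 a1 b0 then 1 else 0) + (if lose 1 1 a1 b1 then 1 else (0 : ℕ)) := by
  revert a0 a1 b0 b1
  decide

theorem Z_sum {n : ℕ} (a0 a1 b0 b1 : Fin n → Bool) :
    n ≤ Z 0 0 a0 b0 + Z 0 1 a0 b1 + Z 1 0 a1 b0 + Z 1 1 a1 b1 := by
  unfold Z
  rw [← Finset.sum_add_distrib, ← Finset.sum_add_distrib, ← Finset.sum_add_distrib]
  calc n = ∑ _i : Fin n, 1 := by simp
    _ ≤ _ := Finset.sum_le_sum fun i _ => lose_parity _ _ _ _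

/-- The threshold score of one input pair. -/
noncomputable def phi (t m z : ℕ) : ℝ := (if z ≤ t then 1 else 0) - (if m < z then 1 else 0)

theorem phi_sum_le {n t m z1 z2 z3 z4 : ℕ} (h : 3 * t + m < n) (htm : t ≤ m)
    (hz : n ≤ z1 + z2 + z3 + z4) :
    phi t m z1 + phi t m z2 + phi t m z3 + phi t m z4 ≤ 2 := by
  unfold phi
  have key : ∀ z : ℕ, ((if z ≤ t then (1 : ℝ) else 0) - (if m < z then 1 else 0) = 1 ∧ z ≤ t) ∨
      ((if z ≤ t then (1 : ℝ) else 0) - (if m < z then 1 else 0) = 0 ∧ t < z ∧ z ≤ m) ∨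
      ((if z ≤ t then (1 : ℝ) else 0) - (if m < z then 1 else 0) = -1 ∧ m < z) := by
    intro z
    rcases le_or_gt z t with h1 | h1
    · left
      rw [if_pos h1, if_neg (by omega)]
      exact ⟨by norm_num, h1⟩
    · rcases le_or_gt z m with h2 | h2
      · right; left
        rw [if_neg (by omega), if_neg (by omega)]
        exact ⟨by norm_num, h1, h2⟩
      · right; right
        rw [if_neg (by omega), if_pos h2]
        exact ⟨by norm_num, h2⟩
  rcases key z1 with ⟨e1, c1⟩ | ⟨e1, c1⟩ | ⟨e1, c1⟩ <;>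
  rcases key z2 with ⟨e2, c2⟩ | ⟨e2, c2⟩ | ⟨e2, c2⟩ <;>
  rcases key z3 with ⟨e3, c3⟩ | ⟨e3, c3⟩ | ⟨e3, c3⟩ <;>
  rcases key z4 with ⟨e4, c4⟩ | ⟨e4, c4⟩ | ⟨e4, c4⟩ <;>
  rw [e1, e2, e3, e4] <;>
  first
  | (exfalso; omega)
  | norm_num

/-- The Bell functional. -/
noncomputable def F {d n : ℕ} (s : Fin d → Fin n → Bool) (t m : ℕ) (p : Behaviour d) : ℝ :=
  ∑ x, ∑ y, ∑ a, ∑ b, phi t m (Z x y (s a) (s b)) * p x y a b

theorem F_det {d n : ℕ} (s : Fin d → Fin n → Bool) {t m : ℕ} (h : 3 * t + m < n) (htm : t ≤ m)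
    (f g : Fin 2 → Fin d) : F s t m (det f g) ≤ 2 := by
  unfold F
  have h1 : ∀ x y : Fin 2, (∑ a, ∑ b, phi t m (Z x y (s a) (s b)) * (det f g : Behaviour d) x y a b)
      = phi t m (Z x y (s (f x)) (s (g y))) := by
    intro x y
    rw [Finset.sum_eq_single (f x)]
    · rw [Finset.sum_eq_single (g y)]
      · simp [det]
      · intro b _ hb
        simp [det, hb]
      · simp
    · intro a _ ha
      refine Finset.sum_eq_zero fun b _ => ?_
      simp [det, ha]
    · simp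
  simp only [h1, Fin.sum_univ_two]
  have h2 := phi_sum_le h htm (Z_sum (s (f 0)) (s (f 1)) (s (g 0)) (s (g 1)))
  linarith

theorem F_local {d n : ℕ} (s : Fin d → Fin n → Bool) {t m : ℕ} (h : 3 * t + m < n) (htm : t ≤ m)
    {p : Behaviour d} (hp : IsLocal p) : F s t m p ≤ 2 := by
  have hlin : IsLinearMap ℝ (F s t m : Behaviour d → ℝ) := by
    refine ⟨fun p q => ?_, fun c p => ?_⟩
    · unfold F
      simp only [Pi.add_apply, mul_add, Finset.sum_add_distrib]
    · unfold F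
      simp only [Pi.smul_apply, smul_eq_mul, Finset.mul_sum]
      refine Finset.sum_congr rfl fun x _ => Finset.sum_congr rfl fun y _ =>
        Finset.sum_congr rfl fun a _ => Finset.sum_congr rfl fun b _ => ?_
      ring
  have hconv : Convex ℝ {p : Behaviour d | F s t m p ≤ 2} := convex_halfSpace_le hlin 2
  have := convexHull_min (s := Set.range fun s : (Fin 2 → Fin d) × (Fin 2 → Fin d) =>
    (det s.1 s.2 : Behaviour d)) (by
      rintro _ ⟨fg, rfl⟩
      exact F_det s h htm fg.1 fg.2) hconv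
  exact this hp

end Pool.Agent.Helper342.Bell
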