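import Pool.Agent.Helper342.Bell.Trace

set_option autoImplicit false

namespace Pool.Agent.Helper342.Bell

theorem IsLocal.avg {d : ℕ} {Λ : Type} [Fintype Λ] (c : Λ → ℝ) (hc : ∀ i, 0 ≤ c i)
    (h1 : ∑ i, c i = 1) (P : Λ → Behaviour d) (hP : ∀ i, IsLocal (P i)) :
    IsLocal (fun x y a b => ∑ i, c i * P i x y a b) := by
  have h := (convex_convexHull ℝ
    (Set.range fun s : (Fin 2 → Fin d) × (Fin 2 → Fin d) =>
      (det s.1 s.2 : Behaviour d))).sum_mem (t := Finset.univ) (w := c) (z := P)
      (fun i _ => hc i) h1 (fun i _ => hP i)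
  unfold IsLocal
  convert h using 1
  ext x y a b
  simp [Finset.sum_apply]

theorem isLocal_det {d : ℕ} (f g : Fin 2 → Fin d) : IsLocal (det f g : Behaviour d) :=
  subset_convexHull ℝ _ ⟨(f, g), rfl⟩

theorem IsLocal.mix {d : ℕ} {p q : Behaviour d} (hp : IsLocal p) (hq : IsLocal q) {s t : ℝ}
    (hs : 0 ≤ s) (ht : 0 ≤ t) (hst : s + t = 1) :
    IsLocal (fun x y a b => s * p x y a b + t * q x y a b) := by
  have h := (convex_convexHull ℝ
    (Set.range fun s : (Fin 2 → Fin d) × (Fin 2 → Fin d) =>
      (det s.1 s.2 : Behaviour d))) hp hq hs ht hst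
  exact h

theorem isLocal_resp {d : ℕ} (f : Fin 2 → Fin d) (r : Fin 2 → Fin d → ℝ)
    (hr : ∀ y b, 0 ≤ r y b) (h1 : ∀ y, ∑ b, r y b = 1) :
    IsLocal (fun x y a b => if a = f x then r y b else 0 : Behaviour d) := by
  have h := IsLocal.avg (d := d) (Λ := Fin d × Fin d) (fun s => r 0 s.1 * r 1 s.2)
    (fun s => mul_nonneg (hr _ _) (hr _ _))
    (by
      rw [Fintype.sum_prod_type, ← Finset.sum_mul_sum, h1, h1, one_mul])
    (fun s => det f ![s.1, s.2]) (fun s => isLocal_det _ _)
  convert h using 1
  ext x y a b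
  rw [Fintype.sum_prod_type]
  by_cases ha : a = f x
  · have key : ∀ y : Fin 2, r y b = ∑ i, ∑ j, r 0 i * r 1 j * (if b = ![i, j] y then 1 else 0) := by
      intro y
      fin_cases y
      · simp only [Fin.zero_eta, Matrix.cons_val_zero]
        calc r 0 b = ∑ i, r 0 i * (if b = i then 1 else 0) * ∑ j, r 1 j := by
              simp [h1]
          _ = _ := by
              refine Finset.sum_congr rfl fun i _ => ?_
              rw [Finset.mul_sum]
              refine Finset.sum_congr rfl fun j _ => ?_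
              split_ifs <;> ring
      · simp only [Fin.mk_one, Matrix.cons_val_one, Matrix.cons_val_zero]
        rw [Finset.sum_comm]
        calc r 1 b = ∑ j, r 1 j * (if b = j then 1 else 0) * ∑ i, r 0 i := by
              simp [h1]
          _ = _ := by
              refine Finset.sum_congr rfl fun i _ => ?_
              rw [Finset.mul_sum]
              refine Finset.sum_congr rfl fun j _ => ?_
              split_ifs <;> ring
    simp only [det, ha, true_and]
    exact key y
  · simp [det, ha]

theorem isLocal_broken {d : ℕ} (hd : 0 < d) (x0 : Fin 2) (R : Fin 2 → Fin d → Fin d → ℝ)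
    (hR : ∀ y a b, 0 ≤ R y a b) (hrow : ∀ y a, ∑ b, R y a b = 1)
    (hcol : ∀ y b, ∑ a, R y a b = 1) :
    IsLocal (fun x y a b => if x = x0 then R y a b / d else 1 / (d : ℝ) ^ 2 : Behaviour d) := by
  have hd' : (0 : ℝ) < d := by exact_mod_cast hd
  have h := IsLocal.avg (d := d) (Λ := Fin d × Fin d) (fun _ => 1 / (d : ℝ) ^ 2)
    (fun s => by positivity)
    (by
      rw [Finset.sum_const, Finset.card_univ, Fintype.card_prod, Fintype.card_fin, nsmul_eq_mul]
      push_cast
      field_simp)
    (fun s => (fun x y a b => if a = (if x = x0 then s.1 else s.2) then R y s.1 b else 0))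
    (fun s => isLocal_resp (fun x => if x = x0 then s.1 else s.2) (fun y b => R y s.1 b)
      (fun y b => hR y s.1 b) (fun y => hrow y s.1))
  convert h using 1
  ext x y a b
  rw [Fintype.sum_prod_type]
  by_cases hx : x = x0
  · simp only [hx, if_true]
    have : ∀ i : Fin d, (∑ _j : Fin d, 1 / (d : ℝ) ^ 2 * (if a = i then R y i b else 0))
        = if a = i then R y i b / d else 0 := by
      intro i
      rw [Finset.sum_const, Finset.card_univ, Fintype.card_fin, nsmul_eq_mul]
      split_ifs
      · field_simp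
      · simp
    simp only [this]
    simp
  · simp only [hx, if_false]
    have : ∀ i : Fin d, (∑ j : Fin d, 1 / (d : ℝ) ^ 2 * (if a = j then R y i b else 0))
        = 1 / (d : ℝ) ^ 2 * R y i b := by
      intro i
      rw [← Finset.mul_sum]
      simp
    simp only [this]
    rw [← Finset.mul_sum, hcol, mul_one]

theorem isLocal_corr {d : ℕ} (hd : 0 < d) :
    IsLocal (fun _ _ a b => if a = b then 1 / (d : ℝ) else 0 : Behaviour d) := by
  have hd' : (0 : ℝ) < d := by exact_mod_cast hd
  have h := IsLocal.avg (d := d) (Λ := Fin d) (fun _ => 1 / (d : ℝ))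
    (fun s => by positivity)
    (by
      rw [Finset.sum_const, Finset.card_univ, Fintype.card_fin, nsmul_eq_mul]
      field_simp)
    (fun s => det (fun _ => s) (fun _ => s)) (fun s => isLocal_det _ _)
  convert h using 1
  ext x y a b
  simp only [det]
  by_cases hab : a = b
  · subst hab
    simp
  · rw [if_neg hab]
    symm
    refine Finset.sum_eq_zero fun i _ => ?_
    rw [if_neg, mul_zero]
    rintro ⟨rfl, rfl⟩
    exact hab rfl

/-- The abstract local model: doubly stochastic `P x y` whose diagonal entries are at least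
`2 w / (1 + w)` give a local behaviour at visibility `(1 + w) / 2`. -/
theorem isLocal_model {d : ℕ} (hd : 0 < d) (w : ℝ) (hw0 : 0 ≤ w) (hw1 : w < 1)
    (P : Fin 2 → Fin 2 → Fin d → Fin d → ℝ) (hP : ∀ x y a b, 0 ≤ P x y a b)
    (hrow : ∀ x y a, ∑ b, P x y a b = 1) (hcol : ∀ x y b, ∑ a, P x y a b = 1)
    (hdiag : ∀ x y a, w ≤ (1 + w) / 2 * P x y a a) :
    IsLocal (fun x y a b => (1 + w) / 2 * (P x y a b / d) + (1 - (1 + w) / 2) / (d : ℝ) ^ 2 :
      Behaviour d) := by
  have hd' : (0 : ℝ) < d := by exact_mod_cast hd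
  have hw2 : (0 : ℝ) < 1 - w := by linarith
  set R : Fin 2 → Fin 2 → Fin d → Fin d → ℝ := fun x y a b =>
    ((1 + w) / 2 * P x y a b - (if a = b then w else 0)) / ((1 - w) / 2) with hRdef
  have hR : ∀ x y a b, 0 ≤ R x y a b := by
    intro x y a b
    refine div_nonneg ?_ (by linarith)
    by_cases hab : a = b
    · subst hab
      rw [if_pos rfl]
      linarith [hdiag x y a]
    · rw [if_neg hab, sub_zero]
      exact mul_nonneg (by linarith) (hP _ _ _ _)
  have hRrow : ∀ x y a, ∑ b, R x y a b = 1 := by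
    intro x y a
    simp only [hRdef]
    rw [← Finset.sum_div, Finset.sum_sub_distrib, ← Finset.mul_sum, hrow]
    simp only [Finset.sum_ite_eq, Finset.mem_univ, if_true]
    rw [div_eq_one_iff_eq (by linarith)]
    ring
  have hRcol : ∀ x y b, ∑ a, R x y a b = 1 := by
    intro x y b
    simp only [hRdef]
    rw [← Finset.sum_div, Finset.sum_sub_distrib, ← Finset.mul_sum, hcol]
    simp only [Finset.sum_ite_eq', Finset.mem_univ, if_true]
    rw [div_eq_one_iff_eq (by linarith)]
    ring
  have h0 := isLocal_broken hd 0 (R 0) (hR 0) (hRrow 0) (hRcol 0)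
  have h1 := isLocal_broken hd 1 (R 1) (hR 1) (hRrow 1) (hRcol 1)
  have h2 := IsLocal.mix h0 h1 (s := 1 / 2) (t := 1 / 2) (by norm_num) (by norm_num) (by norm_num)
  have h3 := IsLocal.mix (isLocal_corr hd) h2 (s := w) (t := 1 - w) hw0 hw2.le (by ring)
  convert h3 using 1
  ext x y a b
  have hx : ∀ x : Fin 2, (1 + w) / 2 * (P x y a b / d) + (1 - (1 + w) / 2) / (d : ℝ) ^ 2
      = w * (if a = b then 1 / (d : ℝ) else 0) + (1 - w) * (1 / 2 * (R x y a b / d)
        + 1 / 2 * (1 / (d : ℝ) ^ 2)) := by
    intro x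
    simp only [hRdef]
    split_ifs
    · field_simp
      ring
    · field_simp
      ring
  rw [hx x]
  have hcase : x = 0 ∨ x = 1 := by omega
  rcases hcase with rfl | rfl
  · simp
  · simp only [one_ne_zero, if_false, if_true, Fin.isValue]
    ring

end Pool.Agent.Helper342.Bell
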