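import Pool.Agent.Helper342.Bell.LocalModels

set_option autoImplicit false

namespace Pool.Agent.Helper342.Bell

open Matrix

theorem mat_mul_conjTranspose {d : ℕ} {e : Fin d → Fin d → ℂ}
    (he : ∀ a b, ∑ j, star (e a j) * e b j = if a = b then 1 else 0) :
    (Matrix.of e) * (Matrix.of e)ᴴ = 1 := by
  ext a b
  rw [Matrix.mul_apply, Matrix.one_apply]
  have h := he b a
  simp only [Matrix.conjTranspose_apply, Matrix.of_apply]
  rw [show (if a = b then (1 : ℂ) else 0) = if b = a then 1 else 0 by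
    simp [eq_comm]]
  rw [← h]
  refine Finset.sum_congr rfl fun j _ => ?_
  ring

theorem conj_mul_ov {d : ℕ} (u w : Fin 2 → Fin d → Fin d → ℂ) (hu : IsMeasurement u)
    (hw : IsMeasurement w) (x y : Fin 2) :
    ((Matrix.of (u x)) * (Matrix.of (w y))ᵀ) * ((Matrix.of (u x)) * (Matrix.of (w y))ᵀ)ᴴ = 1 ∧
    ((Matrix.of (u x)) * (Matrix.of (w y))ᵀ)ᴴ * ((Matrix.of (u x)) * (Matrix.of (w y))ᵀ) = 1 := by
  have h1 := mat_mul_conjTranspose (hu x)
  have h2 := mat_mul_conjTranspose (hw y)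
  have h3 : (Matrix.of (w y))ᴴ * (Matrix.of (w y)) = 1 := mul_eq_one_comm.mp h2
  have h4 : (Matrix.of (w y))ᵀ * (Matrix.of (w y))ᵀᴴ = 1 := by
    have : (Matrix.of (w y))ᵀᴴ = (Matrix.of (w y))ᴴᵀ := rfl
    rw [this, ← Matrix.transpose_mul, h3, Matrix.transpose_one]
  have h5 : ((Matrix.of (u x)) * (Matrix.of (w y))ᵀ)
      * ((Matrix.of (u x)) * (Matrix.of (w y))ᵀ)ᴴ = 1 := by
    rw [Matrix.conjTranspose_mul, Matrix.mul_assoc, ← Matrix.mul_assoc (Matrix.of (w y))ᵀ, h4,
      Matrix.one_mul, h1]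
  exact ⟨h5, mul_eq_one_comm.mp h5⟩

theorem ov_nonneg {d : ℕ} (u w : Fin 2 → Fin d → Fin d → ℂ) (x y : Fin 2) (a b : Fin d) :
    0 ≤ ov u w x y a b := Complex.normSq_nonneg _

theorem ov_row {d : ℕ} (u w : Fin 2 → Fin d → Fin d → ℂ) (hu : IsMeasurement u)
    (hw : IsMeasurement w) (x y : Fin 2) (a : Fin d) : ∑ b, ov u w x y a b = 1 := by
  have h := congrFun (congrFun (conj_mul_ov u w hu hw x y).1 a) a
  rw [Matrix.mul_apply, Matrix.one_apply_eq] at h
  have h2 : ((∑ b, ov u w x y a b : ℝ) : ℂ) = 1 := by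
    rw [← h]
    push_cast
    refine Finset.sum_congr rfl fun b _ => ?_
    rw [Matrix.conjTranspose_apply, Matrix.mul_apply]
    simp only [Matrix.of_apply, Matrix.transpose_apply]
    exact (Complex.mul_conj _).symm
  exact_mod_cast h2

theorem ov_col {d : ℕ} (u w : Fin 2 → Fin d → Fin d → ℂ) (hu : IsMeasurement u)
    (hw : IsMeasurement w) (x y : Fin 2) (b : Fin d) : ∑ a, ov u w x y a b = 1 := by
  have h := congrFun (congrFun (conj_mul_ov u w hu hw x y).2 b) b
  rw [Matrix.mul_apply, Matrix.one_apply_eq] at h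
  have h2 : ((∑ a, ov u w x y a b : ℝ) : ℂ) = 1 := by
    rw [← h]
    push_cast
    refine Finset.sum_congr rfl fun a _ => ?_
    rw [Matrix.conjTranspose_apply, Matrix.mul_apply]
    simp only [Matrix.of_apply, Matrix.transpose_apply]
    rw [mul_comm]
    exact (Complex.mul_conj _).symm
  exact_mod_cast h2

/-- If all the diagonal overlaps are at least `2 w / (1 + w)`, the behaviour at visibility
`(1 + w) / 2` is local. -/
theorem isLocal_behaviour {d : ℕ} (hd : 0 < d) (u w : Fin 2 → Fin d → Fin d → ℂ)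
    (hu : IsMeasurement u) (hw : IsMeasurement w) (s : ℝ) (hs0 : 0 ≤ s) (hs1 : s < 1)
    (hdiag : ∀ x y a, s ≤ (1 + s) / 2 * ov u w x y a a) :
    IsLocal (behaviour u w ((1 + s) / 2)) := by
  have h := isLocal_model hd s hs0 hs1 (ov u w) (ov_nonneg u w) (ov_row u w hu hw)
    (ov_col u w hu hw) hdiag
  convert h using 1
  ext x y a b
  exact behaviour_eq u w hu hw _ x y a b

theorem isLocal_behaviour_zero {d : ℕ} (hd : 0 < d) (u w : Fin 2 → Fin d → Fin d → ℂ)
    (hu : IsMeasurement u) (hw : IsMeasurement w) : IsLocal (behaviour u w 0) := by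
  have hd' : (0 : ℝ) < d := by exact_mod_cast hd
  have h := isLocal_broken hd 0 (fun _ _ _ => 1 / (d : ℝ)) (fun _ _ _ => by positivity)
    (fun _ _ => by
      rw [Finset.sum_const, Finset.card_univ, Fintype.card_fin, nsmul_eq_mul]
      field_simp)
    (fun _ _ => by
      rw [Finset.sum_const, Finset.card_univ, Fintype.card_fin, nsmul_eq_mul]
      field_simp)
  convert h using 1
  ext x y a b
  rw [behaviour_eq u w hu hw]
  split_ifs
  · field_simp
    ring
  · ring

/-- Locality is inherited by smaller visibilities. -/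
theorem isLocal_mono {d : ℕ} (hd : 0 < d) (u w : Fin 2 → Fin d → Fin d → ℂ)
    (hu : IsMeasurement u) (hw : IsMeasurement w) {v v' : ℝ} (hv : 0 ≤ v) (hvv : v ≤ v')
    (h : IsLocal (behaviour u w v')) : IsLocal (behaviour u w v) := by
  rcases eq_or_lt_of_le (hv.trans hvv) with h0 | h0
  · have : v = v' := le_antisymm hvv (by rw [← h0]; exact hv)
    rw [this]
    exact h
  have h1 := IsLocal.mix h (isLocal_behaviour_zero hd u w hu hw) (s := v / v') (t := 1 - v / v')
    (by positivity) (by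
      rw [sub_nonneg, div_le_one h0]
      exact hvv) (by ring)
  convert h1 using 1
  ext x y a b
  rw [behaviour_eq u w hu hw, behaviour_eq u w hu hw, behaviour_eq u w hu hw]
  field_simp
  ring

theorem bddAbove_vis {d : ℕ} (u w : Fin 2 → Fin d → Fin d → ℂ) :
    BddAbove {v : ℝ | v ∈ Set.Icc (0 : ℝ) 1 ∧ IsLocal (behaviour u w v)} :=
  ⟨1, fun _ hv => hv.1.2⟩

theorem le_critVis {d : ℕ} (u w : Fin 2 → Fin d → Fin d → ℂ) {v : ℝ}
    (hv : v ∈ Set.Icc (0 : ℝ) 1) (h : IsLocal (behaviour u w v)) : v ≤ critVis u w :=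
  le_csSup (bddAbove_vis u w) ⟨hv, h⟩

theorem critVis_le {d : ℕ} (hd : 0 < d) (u w : Fin 2 → Fin d → Fin d → ℂ)
    (hu : IsMeasurement u) (hw : IsMeasurement w) {v : ℝ} (hv : 0 ≤ v)
    (h : ¬ IsLocal (behaviour u w v)) : critVis u w ≤ v := by
  refine csSup_le ⟨0, ⟨le_refl _, zero_le_one⟩, isLocal_behaviour_zero hd u w hu hw⟩ ?_
  rintro v' ⟨hv', hl⟩
  by_contra hcon
  push Not at hcon
  exact h (isLocal_mono hd u w hu hw hv hcon.le hl)

theorem half_le_critVis {d : ℕ} (hd : 0 < d) (u w : Fin 2 → Fin d → Fin d → ℂ)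
    (hu : IsMeasurement u) (hw : IsMeasurement w) : 1 / 2 ≤ critVis u w := by
  refine le_critVis u w ⟨by norm_num, by norm_num⟩ ?_
  have h := isLocal_behaviour hd u w hu hw 0 (le_refl _) zero_lt_one (fun x y a => by
    have := ov_nonneg u w x y a a
    linarith)
  rw [show ((1 : ℝ) / 2) = (1 + 0) / 2 by norm_num]
  exact h

end Pool.Agent.Helper342.Bell
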