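import Pool.Agent.Helper342.Bell.Functional
import Pool.Agent.Helper342.Bell.Stoch

set_option autoImplicit false

namespace Pool.Agent.Helper342.Bell

/-! ### Product sums -/

theorem dsum (n : ℕ) (h : Bool → Bool → ℝ) :
    ∑ a : Fin n → Bool, ∑ b : Fin n → Bool, ∏ k, h (a k) (b k) = (∑ α, ∑ β, h α β) ^ n := by
  have h1 : ∀ a : Fin n → Bool, ∑ b : Fin n → Bool, ∏ k, h (a k) (b k)
      = ∏ k, ∑ β, h (a k) β := by
    intro a
    rw [Finset.prod_univ_sum, Fintype.piFinset_univ]
  simp only [h1]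
  have h2 := Finset.prod_univ_sum (fun _ : Fin n => (Finset.univ : Finset Bool))
    (fun _ α => ∑ β, h α β)
  rw [Fintype.piFinset_univ] at h2
  rw [← h2, Finset.prod_const, Finset.card_univ, Fintype.card_fin]

theorem pow_Z {n : ℕ} (σ : ℝ) (x y : Fin 2) (a b : Fin n → Bool) :
    σ ^ (Z x y a b) = ∏ k, (if lose x y (a k) (b k) then σ else 1) := by
  unfold Z
  rw [← Finset.prod_pow_eq_pow_sum]
  refine Finset.prod_congr rfl fun k _ => ?_
  split_ifs <;> simp

theorem sum_lose (x y : Fin 2) (p q : ℝ) :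
    ∑ α : Bool, ∑ β : Bool, (if lose x y α β then p else q) = 2 * p + 2 * q := by
  fin_cases x <;> fin_cases y <;> simp [lose] <;> ring

/-! ### Lower bounds for the score -/

theorem phi_ge_neg_one (t m z : ℕ) : -1 ≤ phi t m z := by
  unfold phi
  split_ifs <;> norm_num

theorem phi_ge_one_sub {t m : ℕ} (htm : t ≤ m) (z : ℕ) {σ : ℝ} (hσ : 1 ≤ σ) :
    1 - 2 * (σ ^ z / σ ^ t) ≤ phi t m z := by
  have h0 : 0 < σ := by linarith
  have hp : 0 < σ ^ z / σ ^ t := by positivity
  unfold phi
  rcases le_or_gt z t with h | h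
  · rw [if_pos h, if_neg (by omega)]
    linarith
  · have h1 : 1 ≤ σ ^ z / σ ^ t := by
      rw [le_div_iff₀ (by positivity), one_mul]
      exact pow_le_pow_right₀ hσ h.le
    rw [if_neg (by omega)]
    split_ifs <;> linarith

theorem phi_ge_neg {t m : ℕ} (z : ℕ) {σ : ℝ} (hσ : 1 ≤ σ) :
    -(σ ^ z / σ ^ m) ≤ phi t m z := by
  have h0 : 0 < σ := by linarith
  have hp : 0 < σ ^ z / σ ^ m := by positivity
  unfold phi
  rcases le_or_gt z m with h | h
  · rw [if_neg (by omega : ¬ m < z)]
    split_ifs <;> linarith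
  · have h1 : 1 ≤ σ ^ z / σ ^ m := by
      rw [le_div_iff₀ (by positivity), one_mul]
      exact pow_le_pow_right₀ hσ h.le
    rw [if_pos h]
    split_ifs <;> linarith

/-- Quantum part of the score for strings. -/
theorem quantum_part {n t m : ℕ} (htm : t ≤ m) (x y : Fin 2) {δ σ : ℝ} (hδ0 : 0 ≤ δ) (hδ1 : δ ≤ 1)
    (hσ : 1 ≤ σ) :
    2 ^ n * (1 - 2 * ((1 - δ + δ * σ) ^ n / σ ^ t)) ≤
    ∑ a : Fin n → Bool, ∑ b : Fin n → Bool,
      phi t m (Z x y a b) * ∏ k, (if lose x y (a k) (b k) then δ else 1 - δ) := by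
  have h0 : 0 < σ := by linarith
  have h1 : ∀ a b : Fin n → Bool,
      (∏ k, (if lose x y (a k) (b k) then δ else 1 - δ))
        - 2 / σ ^ t * ∏ k, (if lose x y (a k) (b k) then δ * σ else 1 - δ) ≤
      phi t m (Z x y a b) * ∏ k, (if lose x y (a k) (b k) then δ else 1 - δ) := by
    intro a b
    have hnn : 0 ≤ ∏ k, (if lose x y (a k) (b k) then δ else 1 - δ) :=
      Finset.prod_nonneg fun k _ => by split_ifs <;> linarith
    have h2 := mul_le_mul_of_nonneg_right (phi_ge_one_sub htm (Z x y a b) hσ) hnn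
    refine le_trans (le_of_eq ?_) h2
    rw [pow_Z]
    have h3 : (∏ k, (if lose x y (a k) (b k) then δ * σ else 1 - δ))
        = (∏ k, (if lose x y (a k) (b k) then σ else 1))
          * ∏ k, (if lose x y (a k) (b k) then δ else 1 - δ) := by
      rw [← Finset.prod_mul_distrib]
      refine Finset.prod_congr rfl fun k _ => ?_
      split_ifs <;> ring
    rw [h3]
    ring
  calc 2 ^ n * (1 - 2 * ((1 - δ + δ * σ) ^ n / σ ^ t))
      = (∑ α : Bool, ∑ β : Bool, (if lose x y α β then δ else 1 - δ)) ^ n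
        - 2 / σ ^ t * (∑ α : Bool, ∑ β : Bool, (if lose x y α β then δ * σ else 1 - δ)) ^ n := by
        rw [sum_lose, sum_lose]
        have e1 : 2 * δ + 2 * (1 - δ) = 2 := by ring
        have e2 : 2 * (δ * σ) + 2 * (1 - δ) = 2 * (1 - δ + δ * σ) := by ring
        rw [e1, e2, mul_pow]
        ring
    _ = ∑ a : Fin n → Bool, ∑ b : Fin n → Bool,
        ((∏ k, (if lose x y (a k) (b k) then δ else 1 - δ))
        - 2 / σ ^ t * ∏ k, (if lose x y (a k) (b k) then δ * σ else 1 - δ)) := by
        rw [← dsum, ← dsum, Finset.mul_sum, ← Finset.sum_sub_distrib]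
        refine Finset.sum_congr rfl fun a _ => ?_
        rw [Finset.mul_sum, ← Finset.sum_sub_distrib]
    _ ≤ _ := Finset.sum_le_sum fun a _ => Finset.sum_le_sum fun b _ => h1 a b

/-- Noise part of the score for strings. -/
theorem noise_part {n t m : ℕ} (x y : Fin 2) {σ : ℝ} (hσ : 1 ≤ σ) :
    -(4 ^ n * (((1 + σ) / 2) ^ n / σ ^ m)) ≤
    ∑ a : Fin n → Bool, ∑ b : Fin n → Bool, phi t m (Z x y a b) := by
  have h1 : ∀ a b : Fin n → Bool,
      -(1 / σ ^ m) * ∏ k, (if lose x y (a k) (b k) then σ else 1) ≤ phi t m (Z x y a b) := by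
    intro a b
    refine le_trans (le_of_eq ?_) (phi_ge_neg (Z x y a b) hσ)
    rw [pow_Z]
    ring
  calc -(4 ^ n * (((1 + σ) / 2) ^ n / σ ^ m))
      = -(1 / σ ^ m) * (∑ α : Bool, ∑ β : Bool, (if lose x y α β then σ else 1)) ^ n := by
        rw [sum_lose]
        have e1 : 2 * σ + 2 * 1 = 4 * ((1 + σ) / 2) := by ring
        rw [e1, mul_pow]
        ring
    _ = ∑ a : Fin n → Bool, ∑ b : Fin n → Bool,
        (-(1 / σ ^ m) * ∏ k, (if lose x y (a k) (b k) then σ else 1)) := by
        rw [← dsum, Finset.mul_sum]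
        refine Finset.sum_congr rfl fun a _ => ?_
        rw [Finset.mul_sum]
    _ ≤ _ := Finset.sum_le_sum fun a _ => Finset.sum_le_sum fun b _ => h1 a b

/-! ### Rotated bases -/

/-- The rows of the rotation matrix of angle `θ`. -/
noncomputable def rot (θ : ℝ) (a j : Bool) : ℝ :=
  if a = j then Real.cos θ else if a = false then Real.sin θ else -Real.sin θ

/-- Inner products of the rotated bases. -/
noncomputable def kap (θ φ : ℝ) (a b : Bool) : ℝ := ∑ j, rot θ a j * rot φ b j

theorem kap_eq (θ φ : ℝ) (a b : Bool) :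
    kap θ φ a b = if a = b then Real.cos (θ - φ) else
      if a = false then Real.sin (θ - φ) else -Real.sin (θ - φ) := by
  unfold kap rot
  rw [Real.cos_sub, Real.sin_sub]
  cases a <;> cases b <;> simp <;> ring

theorem kap_self (θ : ℝ) (a b : Bool) : kap θ θ a b = if a = b then 1 else 0 := by
  rw [kap_eq, sub_self, Real.cos_zero, Real.sin_zero]
  split_ifs <;> simp

/-- Alice's angles. -/
noncomputable def angA : Fin 2 → ℝ := ![0, Real.pi / 4]

/-- Bob's angles. -/
noncomputable def angB : Fin 2 → ℝ := ![Real.pi / 8, -(Real.pi / 8)]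

/-- The losing probability `sin² (π/8)`. -/
noncomputable def del : ℝ := Real.sin (Real.pi / 8) ^ 2

theorem cos_sq_ang (x y : Fin 2) :
    Real.cos (angA x - angB y) ^ 2 = if x = 1 ∧ y = 1 then del else 1 - del := by
  have hc : Real.cos (Real.pi / 8) ^ 2 = 1 - del := by
    have := Real.sin_sq_add_cos_sq (Real.pi / 8)
    unfold del
    linarith
  have h00 : angA 0 - angB 0 = -(Real.pi / 8) := by simp [angA, angB]
  have h01 : angA 0 - angB 1 = Real.pi / 8 := by simp [angA, angB]
  have h10 : angA 1 - angB 0 = Real.pi / 8 := by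
    simp only [angA, angB, Matrix.cons_val_one, Matrix.cons_val_zero]
    ring
  have h11 : angA 1 - angB 1 = Real.pi / 2 - Real.pi / 8 := by
    simp only [angA, angB, Matrix.cons_val_one, Matrix.cons_val_zero]
    ring
  fin_cases x <;> fin_cases y
  · simp only [Fin.zero_eta, Fin.mk_one]
    rw [h00, Real.cos_neg, hc, if_neg (by decide)]
  · simp only [Fin.zero_eta, Fin.mk_one]
    rw [h01, hc, if_neg (by decide)]
  · simp only [Fin.zero_eta, Fin.mk_one]
    rw [h10, hc, if_neg (by decide)]
  · simp only [Fin.zero_eta, Fin.mk_one]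
    rw [h11, Real.cos_pi_div_two_sub, if_pos (by decide)]
    rfl

theorem kap_sq (x y : Fin 2) (a b : Bool) :
    kap (angA x) (angB y) a b ^ 2 = if lose x y a b then del else 1 - del := by
  have h1 := cos_sq_ang x y
  have h2 : Real.sin (angA x - angB y) ^ 2 = 1 - Real.cos (angA x - angB y) ^ 2 := by
    have := Real.sin_sq_add_cos_sq (angA x - angB y)
    linarith
  rw [kap_eq]
  unfold lose
  by_cases hxy : x = 1 ∧ y = 1
  · rw [if_pos hxy] at h1
    rw [decide_eq_true hxy]
    cases a <;> cases b <;> simp [h1, h2]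
  · rw [if_neg hxy] at h1
    rw [decide_eq_false hxy]
    cases a <;> cases b <;> simp [h1, h2]

/-- Index set `q` blocks of strings and `r` left over indices. -/
abbrev Idx (q n r : ℕ) : Type := (Fin q × (Fin n → Bool)) ⊕ Fin r

/-- Block diagonal orthogonal matrix: tensor powers of rotations and an identity block. -/
noncomputable def U {q n r : ℕ} (θ : ℝ) : Idx q n r → Idx q n r → ℝ
  | Sum.inl (i, a), Sum.inl (i', j) => if i = i' then ∏ k, rot θ (a k) (j k) else 0
  | Sum.inr k, Sum.inr k' => if k = k' then 1 else 0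
  | Sum.inl _, Sum.inr _ => 0
  | Sum.inr _, Sum.inl _ => 0

/-- Inner products of the rows. -/
noncomputable def V {q n r : ℕ} (θ φ : ℝ) : Idx q n r → Idx q n r → ℝ
  | Sum.inl (i, a), Sum.inl (i', b) => if i = i' then ∏ k, kap θ φ (a k) (b k) else 0
  | Sum.inr k, Sum.inr k' => if k = k' then 1 else 0
  | Sum.inl _, Sum.inr _ => 0
  | Sum.inr _, Sum.inl _ => 0

theorem U_inner {q n r : ℕ} (θ φ : ℝ) (α β : Idx q n r) :
    ∑ j, U θ α j * U φ β j = V θ φ α β := by
  rw [Fintype.sum_sum_type, Fintype.sum_prod_type]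
  rcases α with ⟨i, a⟩ | k <;> rcases β with ⟨i', b⟩ | k'
  · simp only [U, V, mul_zero, Finset.sum_const_zero, add_zero]
    by_cases h : i = i'
    · subst h
      rw [if_pos rfl, Finset.sum_eq_single i]
      · simp only [if_true]
        have h1 : (∏ k, kap θ φ (a k) (b k))
            = ∑ j : Fin n → Bool, ∏ k, (rot θ (a k) (j k) * rot φ (b k) (j k)) := by
          unfold kap
          rw [Finset.prod_univ_sum, Fintype.piFinset_univ]
        rw [h1]
        refine Finset.sum_congr rfl fun j _ => ?_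
        rw [Finset.prod_mul_distrib]
      · intro i' _ hi'
        refine Finset.sum_eq_zero fun j _ => ?_
        rw [if_neg (Ne.symm hi'), zero_mul]
      · simp
    · rw [if_neg h]
      refine Finset.sum_eq_zero fun i'' _ => Finset.sum_eq_zero fun j _ => ?_
      by_cases h1 : i = i''
      · subst h1
        rw [if_neg (Ne.symm h), mul_zero]
      · rw [if_neg h1, zero_mul]
  · simp [U, V]
  · simp [U, V]
  · simp only [U, V, mul_zero, Finset.sum_const_zero, zero_add]
    simp only [ite_mul, one_mul, zero_mul, Finset.sum_ite_eq, Finset.mem_univ, if_true]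
    simp only [eq_comm]

theorem V_self {q n r : ℕ} (θ : ℝ) (α β : Idx q n r) :
    V θ θ α β = if α = β then 1 else 0 := by
  rcases α with ⟨i, a⟩ | k <;> rcases β with ⟨i', b⟩ | k'
  · simp only [V, kap_self, Sum.inl.injEq, Prod.mk.injEq]
    by_cases h : i = i'
    · by_cases h2 : a = b
      · subst h2
        simp [h]
      · have : ∃ k, a k ≠ b k := by
          by_contra hcon
          push Not at hcon
          exact h2 (funext hcon)
        obtain ⟨k, hk⟩ := this
        rw [if_pos h, if_neg (by tauto)]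
        exact Finset.prod_eq_zero (Finset.mem_univ k) (if_neg hk)
    · rw [if_neg h, if_neg (by tauto)]
  · simp [V]
  · simp [V]
  · simp [V]

/-- The string attached to an index. -/
def str {q n r : ℕ} : Idx q n r → Fin n → Bool
  | Sum.inl (_, a) => a
  | Sum.inr _ => fun _ => false

end Pool.Agent.Helper342.Bell
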