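import Pool.Agent.Helper342.Bell.Defs

set_option autoImplicit false

namespace Pool.Agent.Helper342.Bell

open scoped Kronecker

/-- The overlap matrix `P(a,b) = |∑_j u_a(j) w_b(j)|²`. -/
noncomputable def ov {d : ℕ} (u w : Fin 2 → Fin d → Fin d → ℂ) (x y : Fin 2) (a b : Fin d) : ℝ :=
  Complex.normSq (∑ j, u x a j * w y b j)

theorem ketbra_kron {ι κ : Type} [Fintype ι] [Fintype κ] (ψ : ι → ℂ) (φ : κ → ℂ) :
    ketbra ψ ⊗ₖ ketbra φ = ketbra (fun q : ι × κ => ψ q.1 * φ q.2) := by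
  ext ⟨i, i'⟩ ⟨j, j'⟩
  simp [ketbra, Matrix.vecMulVec_apply, Matrix.kroneckerMap_apply]
  ring

theorem trace_ketbra_mul {ι : Type} [Fintype ι] (ψ φ : ι → ℂ) :
    Matrix.trace (ketbra ψ * ketbra φ) = (∑ i, star (ψ i) * φ i) * (∑ i, ψ i * star (φ i)) := by
  classical
  rw [Matrix.trace]
  simp only [Matrix.diag_apply, Matrix.mul_apply, ketbra, Matrix.vecMulVec_apply, Pi.star_apply]
  rw [Finset.sum_mul_sum, Finset.sum_comm]
  refine Finset.sum_congr rfl fun i _ => Finset.sum_congr rfl fun j _ => ?_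
  ring

theorem trace_ketbra {ι : Type} [Fintype ι] (ψ : ι → ℂ) :
    Matrix.trace (ketbra ψ) = ∑ i, ψ i * star (ψ i) := by
  rw [Matrix.trace]
  simp only [Matrix.diag_apply, ketbra, Matrix.vecMulVec_apply, Pi.star_apply]

theorem behaviour_eq {d : ℕ} (u w : Fin 2 → Fin d → Fin d → ℂ) (hu : IsMeasurement u)
    (hw : IsMeasurement w) (v : ℝ) (x y : Fin 2) (a b : Fin d) :
    behaviour u w v x y a b = v * (ov u w x y a b / d) + (1 - v) / (d : ℝ) ^ 2 := by
  have hd : 0 < d := lt_of_le_of_lt (Nat.zero_le _) a.isLt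
  have hd' : (0 : ℝ) < d := by exact_mod_cast hd
  unfold behaviour rho
  rw [ketbra_kron, add_mul, Matrix.trace_add, Matrix.smul_mul, Matrix.smul_mul, Matrix.trace_smul,
    Matrix.trace_smul, one_mul, trace_ketbra_mul, trace_ketbra]
  have h1 : (∑ i : Fin d × Fin d, star (Phi d i) * (u x a i.1 * w y b i.2))
      = (((Real.sqrt d)⁻¹ : ℝ) : ℂ) * ∑ j, u x a j * w y b j := by
    rw [Fintype.sum_prod_type, Finset.mul_sum]
    refine Finset.sum_congr rfl fun i _ => ?_
    rw [Finset.sum_eq_single i]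
    · simp [Phi]
    · intro j _ hj
      simp [Phi, Ne.symm hj]
    · simp
  have h2 : (∑ i : Fin d × Fin d, Phi d i * star (u x a i.1 * w y b i.2))
      = (((Real.sqrt d)⁻¹ : ℝ) : ℂ) * star (∑ j, u x a j * w y b j) := by
    have := congrArg star h1
    rw [star_sum] at this
    simp only [star_mul', star_star] at this
    have h7 : star ((((Real.sqrt d)⁻¹ : ℝ) : ℂ)) = (((Real.sqrt d)⁻¹ : ℝ) : ℂ) :=
      Complex.conj_ofReal _
    rw [h7] at this
    simp only [star_mul']
    exact this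
  have h3 : (∑ i : Fin d × Fin d, u x a i.1 * w y b i.2 * star (u x a i.1 * w y b i.2)) = 1 := by
    rw [Fintype.sum_prod_type]
    have : ∀ i j : Fin d, u x a i * w y b j * star (u x a i * w y b j)
        = (star (u x a i) * u x a i) * (star (w y b j) * w y b j) := by
      intro i j
      rw [star_mul']
      ring
    simp only [this]
    rw [← Finset.sum_mul_sum, hu x a a, hw y b b]
    simp
  rw [h1, h2, h3]
  have h4 : (((Real.sqrt d)⁻¹ : ℝ) : ℂ) * (∑ j, u x a j * w y b j)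
      * ((((Real.sqrt d)⁻¹ : ℝ) : ℂ) * star (∑ j, u x a j * w y b j))
      = ((ov u w x y a b / d : ℝ) : ℂ) := by
    have h5 : (Real.sqrt d)⁻¹ * (Real.sqrt d)⁻¹ = (d : ℝ)⁻¹ := by
      rw [← mul_inv, Real.mul_self_sqrt hd'.le]
    have h6 : (∑ j, u x a j * w y b j) * star (∑ j, u x a j * w y b j)
        = ((ov u w x y a b : ℝ) : ℂ) := by
      unfold ov
      exact Complex.mul_conj _
    calc _ = ((((Real.sqrt d)⁻¹ * (Real.sqrt d)⁻¹ : ℝ)) : ℂ)
          * ((∑ j, u x a j * w y b j) * star (∑ j, u x a j * w y b j)) := by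
          push_cast
          ring
      _ = _ := by
          rw [h5, h6, ← Complex.ofReal_mul]
          congr 1
          field_simp
  rw [h4, smul_eq_mul, smul_eq_mul, mul_one, ← Complex.ofReal_mul, ← Complex.ofReal_add,
    Complex.ofReal_re]

end Pool.Agent.Helper342.Bell
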